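import Pool.Agent.LibGk1.Poly

/-!
MP_3cda5a_co, Q2 (negated form): for `k = 3`, `d = 6` there is a simplicial `6`-polytope with
boundary complex `Δ`, `g₃(Δ) = 1`, such that `Δ` has no admissible cell complex in which `Σ` is the
boundary complex of a simplicial `6`-polytope.
-/

namespace Pool.Agent.Results.MP_3cda5a_co.PolytopeNoCell

open Pool.Agent.LibGk1

theorem result : ∃ Δ : Finset (Finset ℕ), IsPolytopeBoundary 6 Δ ∧ gNum 6 Δ 3 = 1 ∧
    ¬ ∃ K D : Finset (Finset ℕ), Admissible 3 6 Δ K D ∧ IsPolytopeBoundary 6 (bdry ℝ D) :=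
  ⟨Delta, Delta_polytope, Delta_gNum, fun ⟨K, D, h, _⟩ => no_admissible K D h⟩

end Pool.Agent.Results.MP_3cda5a_co.PolytopeNoCell
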