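import Pool.Agent.LibGk1.Core

/-!
MP_3cda5a_co, Q1 (negated form): for `k = 3`, `d = 6` there is a `5`-sphere `Δ` with `g₃(Δ) = 1`
which has no admissible cell complex.
-/

namespace Pool.Agent.Results.MP_3cda5a_co.SphereNoCell

open Pool.Agent.LibGk1

theorem result : ∃ Δ : Finset (Finset ℕ), IsSphere (ZMod 2) 6 Δ ∧ gNum 6 Δ 3 = 1 ∧
    ¬ ∃ K D : Finset (Finset ℕ), Admissible 3 6 Δ K D :=
  ⟨Delta, Delta_isSphere, Delta_gNum, fun ⟨K, D, h⟩ => no_admissible K D h⟩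

end Pool.Agent.Results.MP_3cda5a_co.SphereNoCell
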